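import Pool.Agent.H602Z.KT.Spec

set_option autoImplicit false
set_option linter.unusedVariables false

/-!
Statements of the pieces of the proof that a central extension of a residually finite group by
the group of order two need not be hyperlinear.
-/

namespace Pool.Agent.H923Z.CE

open Pool.Agent.H304Z.NH Pool.Agent.H602Z.KT

/-- residual finiteness -/
def RF (G : Type) [Group G] : Prop :=
  ∀ g : G, g ≠ 1 → ∃ (Q : Type) (_ : Group Q) (_ : Finite Q) (f : G →* Q), f g ≠ 1

/-- `e` does not centralise the centraliser of `D` -/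
def Moves {E : Type} [Group E] (D : Subgroup E) (e : E) : Prop :=
  ∃ a : E, (∀ d ∈ D, a * d = d * a) ∧ e * a ≠ a * e

open Classical in
/-- zero on the classes that act nontrivially on the centraliser of `D`, one on the others -/
noncomputable def tauD {E : Type} [Group E] (D : Subgroup E) [D.Normal] (w : E ⧸ D) : ℝ :=
  if ∃ e : E, (e : E ⧸ D) = w ∧ Moves D e then 0 else 1

/-- the quotient of a hyperlinear group by a Kazhdan normal subgroup acts on the commutant -/
def S_Q : Prop :=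
  ∀ (E : Type) [Group E] (D : Subgroup E) [D.Normal] (S : Finset D), Kaz D S →
    Subgroup.closure (S : Set D) = ⊤ → IsHyp E → Micro (E ⧸ D) (tauD D)

/-- the data of the middle group -/
def Mid (G : Type) [Group G] (L : Subgroup G) : Prop :=
  ∃ (M : Type) (_ : Group M) (D : Subgroup M) (_ : D.Normal) (S : Finset D) (h : M →* G)
    (κ : G →* M) (c : M → G → ZMod 2) (b : M),
    RF M ∧ Kaz D S ∧ Subgroup.closure (S : Set D) = ⊤ ∧
    (∀ m m' g, c (m * m') g = c m g + c m' ((h m)⁻¹ * g)) ∧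
    (∀ d ∈ D, h d = 1 ∧ ∀ g, c d g = 0) ∧
    (∀ x, h (κ x) = x ∧ ∀ g, c (κ x) g = 0) ∧ h b = 1 ∧
    (∀ g ∈ L, c b g = 1) ∧ (∀ g, g ∉ L → c b g = 0) ∧
    ∀ g ∈ L, b⁻¹ * (κ g * b * (κ g)⁻¹) ∈ D

/-- the data of the extension -/
def Ext (G : Type) [Group G] (L : Subgroup G) : Prop :=
  ∃ (E : Type) (_ : Group E) (N D : Subgroup E) (_ : N.Normal) (_ : D.Normal) (S : Finset D)
    (φ : G →* E) (b : E),
    Nat.card N = 2 ∧ RF (E ⧸ N) ∧ Kaz D S ∧ Subgroup.closure (S : Set D) = ⊤ ∧
    (∀ g ∈ L, b⁻¹ * (φ g * b * (φ g)⁻¹) ∈ D) ∧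
    ∀ x y : G, x⁻¹ * y ∉ L → Moves D ((φ x * b * (φ x)⁻¹)⁻¹ * (φ y * b * (φ y)⁻¹))

/-- elementary matrices -/
def IsE {R : Type} [Ring R] (i j : Fin 3) (r : R) (g : (Matrix (Fin 3) (Fin 3) R)ˣ) : Prop :=
  i ≠ j ∧ (g : Matrix (Fin 3) (Fin 3) R) = 1 + Matrix.single i j r

/-- the elementary group of a subalgebra -/
def EL {K R : Type} [Field K] [Ring R] [Algebra K R] (A : Subalgebra K R) :
    Subgroup (Matrix (Fin 3) (Fin 3) R)ˣ :=
  Subgroup.closure {g | ∃ i j, ∃ r ∈ A, IsE i j r g}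

/-- property (T) of elementary groups over large finite fields -/
def S_ELT : Prop :=
  ∀ (K R : Type) [Field K] [Fintype K] [Ring R] [Algebra K R] (T : Finset R),
    2 * (T.card + 3) ^ 2 ≤ Fintype.card K →
    ∃ S : Finset (EL (Algebra.adjoin K (T : Set R))), Kaz _ S ∧
      Subgroup.closure (S : Set (EL (Algebra.adjoin K (T : Set R)))) = ⊤

/-- construction of the middle group -/
def S_MID : Prop :=
  ∀ (G : Type) [Group G] (L : Subgroup G) (SG : Finset G) (SL : Finset L),
    Subgroup.closure (SG : Set G) = ⊤ → Subgroup.closure (SL : Set L) = ⊤ → RF G → Mid G L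

/-- construction of the extension -/
def S_EXT : Prop :=
  ∀ (G : Type) [Group G] (L : Subgroup G), RF G → Mid G L → Ext G L

end Pool.Agent.H923Z.CE
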